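import Pool.Agent.Lib.helper1.Hc4

set_option autoImplicit false

namespace Pool.Agent.Results.MP_6f5b46_pr.HardCore

open MeasureTheory Filter Topology Set
open scoped Classical

/-- configurations on the square lattice; `true` is filled (1), `false` is empty (0) -/
abbrev Cfg := ℤ × ℤ → Bool

/-- the FA-4f constraint: all four nearest neighbours are empty -/
def fa4 (x : ℤ × ℤ) (η : Cfg) : ℝ :=
  if η (x + (1, 0)) = false ∧ η (x - (1, 0)) = false ∧ η (x + (0, 1)) = false ∧
    η (x - (0, 1)) = false then 1 else 0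

/-- local functions -/
def Loc {α : Type} (f : Cfg → α) : Prop := ∃ S : Finset (ℤ × ℤ), DependsOn f (S : Set (ℤ × ℤ))

/-- the generator of the KCM with rates `c` on local functions -/
noncomputable def gen (c : ℤ × ℤ → Cfg → ℝ) (p : ℝ) (f : Cfg → ℝ) (η : Cfg) : ℝ :=
  ∑ᶠ x, c x η * (if η x = true then 1 - p else p) * (f (Function.update η x (!η x)) - f η)

/-- continuous functions on the configuration space -/
abbrev CC := C(Cfg, ℝ)

/-- `P` is a family of linear maps -/
def Lin (P : ℝ → CC → CC) : Prop := ∀ t, IsLinearMap ℝ (P t)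

/-- `P` is a strongly continuous contraction semigroup -/
def Semi (P : ℝ → CC → CC) : Prop :=
  Lin P ∧ (∀ f, P 0 f = f) ∧ (∀ s t f, 0 ≤ s → 0 ≤ t → P (s + t) f = P s (P t f)) ∧
    (∀ t f, 0 ≤ t → ‖P t f‖ ≤ ‖f‖) ∧ ∀ f, ContinuousOn (fun t => P t f) (Ici 0)

/-- `g` is the right derivative of `u` at `0` -/
def Der (u : ℝ → CC) (g : CC) : Prop := HasDerivWithinAt u g (Ici 0) 0

/-- stationarity, in the generator form and in the semigroup form -/
def Stat (c : ℤ × ℤ → Cfg → ℝ) (p : ℝ) (μ : Measure Cfg) : Prop :=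
  (∀ f : Cfg → ℝ, Loc f → ∫ η, gen c p f η ∂μ = 0) ∧
  ∀ P : ℝ → CC → CC, Semi P →
    (∀ f g : CC, Loc f → (∀ η, g η = gen c p f η) → Der (fun t => P t f) g) →
    ∀ t, 0 ≤ t → ∀ f : CC, ∫ η, P t f η ∂μ = ∫ η, f η ∂μ

/-- limit of the bootstrap iteration on the sites of `Λ` -/
noncomputable def boot (c : ℤ × ℤ → Cfg → ℝ) (Λ : Set (ℤ × ℤ)) (η : Cfg) : Cfg := fun x =>
  decide (∀ n : ℕ, (fun (ζ : Cfg) y => if y ∈ Λ ∧ 0 < c y ζ then false else ζ y)^[n] η x = true)

def Lam (L : ℕ) : Set (ℤ × ℤ) := {x | |x.1| ≤ L ∧ |x.2| ≤ L}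

/-- the event `A_L(β)` -/
def AL (c : ℤ × ℤ → Cfg → ℝ) (β : Cfg) (L : ℕ) : Set Cfg :=
  {η | ∀ x ∈ Lam L, boot c (Lam L) (fun y => if y ∈ Lam L then η y else true) x = β x}

/-- product Bernoulli measure -/
noncomputable def piP (p : unitInterval) : Measure Cfg :=
  Measure.infinitePi fun _ => ProbabilityTheory.bernoulliMeasure true false p

/-- `π(E | A_L(β))` -/
noncomputable def cnd (c : ℤ × ℤ → Cfg → ℝ) (p : unitInterval) (β : Cfg) (E : Set Cfg) (L : ℕ) :
    ENNReal := piP p (AL c β L ∩ E) / piP p (AL c β L)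

/-- `β` is a fixed point of the bootstrap closure and admissible -/
def Adm (c : ℤ × ℤ → Cfg → ℝ) (p : unitInterval) (β : Cfg) : Prop :=
  boot c univ β = β ∧ (∀ᶠ L in atTop, 0 < piP p (AL c β L)) ∧
    ∀ E : Set Cfg, Loc (· ∈ E) → ∃ a, Tendsto (cnd c p β E) atTop (𝓝 a)

theorem result : ∃ p : unitInterval, 0 < p ∧ p < 1 ∧ ∃ μ : Measure Cfg, IsProbabilityMeasure μ ∧
    Stat fa4 p μ ∧ ¬ ∃ ν : Measure Cfg, IsProbabilityMeasure ν ∧ (∀ᵐ β ∂ν, Adm fa4 p β) ∧
      ∀ E : Set Cfg, Loc (· ∈ E) → AEMeasurable (fun β => limUnder atTop (cnd fa4 p β E)) ν ∧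
        μ E = ∫⁻ β, limUnder atTop (cnd fa4 p β E) ∂ν := by
  open Pool.Agent.Lib.helper1.Hc Pool.Agent.Lib.helper1.Uq in
  have q0 := qq_pos
  have q1 := qq_le
  let p : unitInterval := ⟨1 - qq, by linarith, by linarith⟩
  have hfa : fa4 = cc := by
    funext x η
    refine if_congr ?_ rfl rfl
    simp only [Prod.forall, Bool.forall_bool, stp, ee, Bool.false_eq_true, if_false, if_true]
    tauto
  have hgen : ∀ f η, gen fa4 p f η = ∑ᶠ x, term x f η := by
    intro f η
    simp only [gen, hfa, term, flp, p, sub_sub_cancel]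
  have hst : ∀ μ : Measure Cfg, [IsProbabilityMeasure μ] →
      (∀ x f, Continuous f → ∫ η, term x f η ∂μ = 0) → Stat fa4 p μ := by
    intro μ _ h
    refine ⟨fun f ⟨S, hS⟩ => ?_, fun P ⟨hl, h0, h1, h2, h3⟩ h4 t ht f => ?_⟩
    swap
    · let Q : ℝ → CC →L[ℝ] CC := fun t => ((hl (max t 0)).mk' _).mkContinuous 1
        (fun f => by simpa using h2 _ f (le_max_right t 0))
      have hQ : ∀ t f, 0 ≤ t → Q t f = P t f := fun t f ht => by simp [Q, max_eq_left ht]
      rw [← hQ t f ht]
      refine inv_all (intL μ) (fun x g => h x g g.continuous) Q ?_ ?_ ?_ ?_ ?_ t ht f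
      · ext1 f; rw [hQ 0 f le_rfl, h0]; rfl
      · intro s t hs ht
        ext1 f
        rw [mul_apply_eq_comp, hQ _ _ (add_nonneg hs ht), hQ _ _ hs, hQ _ _ ht, h1 s t f hs ht]
      · exact fun t _ => LinearMap.mkContinuous_norm_le _ zero_le_one _
      · exact fun f => (h3 f).congr (fun t ht => hQ t f ht)
      · exact fun f g hf hg => HasDerivWithinAt.congr (h4 f g hf
          (fun η => (hg η).trans (hgen f η).symm)) (fun t ht => hQ t f ht) (hQ 0 f le_rfl)
    simp only [hgen, fin_term hS]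
    rw [integral_finsetSum _ (fun x _ => int_cont μ (cont_term x (cont_of_dep S hS)))]
    exact Finset.sum_eq_zero (fun x _ => h x f (cont_of_dep S hS))
  have hrep : ∀ μ ν : Measure Cfg, IsProbabilityMeasure ν →
      (∀ x k, μ {η | η x = true ∧ η (stp x k) = true} = 0) → (∀ᵐ β ∂ν, Adm fa4 p β) →
      (∀ E : Set Cfg, Loc (· ∈ E) → AEMeasurable (fun β => limUnder atTop (cnd fa4 p β E)) ν ∧
        μ E = ∫⁻ β, limUnder atTop (cnd fa4 p β E) ∂ν) →
      μ {η | η 0 = true} = limUnder atTop (cnd fa4 p (fun _ => false) {η | η 0 = true}) := by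
    intro μ ν _ hz ha hE
    have h1 : ∀ᵐ β ∂ν, ∀ x k, limUnder atTop
        (cnd fa4 p β {η | η x = true ∧ η (stp x k) = true}) = 0 := by
      refine ae_all_iff.2 (fun x => ae_all_iff.2 (fun k => ?_))
      obtain ⟨m, e⟩ := hE {η | η x = true ∧ η (stp x k) = true} ⟨{x, stp x k}, fun a b e => by
        simp only [mem_ofPred_eq, e x (by simp), e (stp x k) (by simp)]⟩
      exact (lintegral_eq_zero_iff' m).1 (e.symm.trans (hz x k))
    have h2 : ∀ᵐ β ∂ν, β = fun _ => false := by
      filter_upwards [h1, ha] with β h1 ha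
      funext x
      by_contra hx
      have hx : β x = true := by simpa using hx
      have hn : ∀ k, β (stp x k) = false := by
        intro k
        by_contra hk
        have hk : β (stp x k) = true := by simpa using hk
        have ht : Tendsto (cnd fa4 p β {η | η x = true ∧ η (stp x k) = true}) atTop (𝓝 1) := by
          refine tendsto_const_nhds.congr' ?_
          filter_upwards [ha.2.1, eventually_ge_atTop (x.1.natAbs + x.2.natAbs +
            (stp x k).1.natAbs + (stp x k).2.natAbs)] with L hL hL'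
          have key : ∀ η ∈ AL fa4 β L, ∀ y ∈ Lam L, β y = true → η y = true := by
            intro η hη y hy hb
            have := of_decide_eq_true ((hη y hy).trans hb) 0
            simpa [hy] using this
          have : IsProbabilityMeasure (piP p) := by unfold piP; infer_instance
          have hs : AL fa4 β L ⊆ {η | η x = true ∧ η (stp x k) = true} := fun η hη =>
            ⟨key η hη x (by simp only [Lam, mem_ofPred_eq, abs_le]; omega) hx,
              key η hη _ (by simp only [Lam, mem_ofPred_eq, abs_le]; omega) hk⟩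
          rw [cnd, inter_eq_left.2 hs, ENNReal.div_self hL.ne' (measure_ne_top _ _)]
        have := h1 x k
        rw [ht.limUnder_eq] at this
        exact one_ne_zero this
      have := of_decide_eq_true ((congrFun ha.1 x).trans hx) 1
      simp [hfa, cc, hn] at this
    rw [(hE {η | η 0 = true} ⟨{0}, fun a b e => by simp only [mem_ofPred_eq, e 0 (by simp)]⟩).2,
      lintegral_congr_ae (g := fun _ => limUnder atTop (cnd fa4 p (fun _ => false)
        {η | η 0 = true})) (h2.mono fun β hβ => by rw [hβ]), lintegral_const, measure_univ, mul_one]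
  refine ⟨p, show (0 : ℝ) < 1 - qq by linarith, show (1 - qq : ℝ) < 1 by linarith, ?_⟩
  by_contra hcon
  push Not at hcon
  obtain ⟨μ0, i0, a0, b0, -, d0⟩ := exists_mu 0 (Or.inl rfl)
  obtain ⟨μ1, i1, a1, b1, c1, -⟩ := exists_mu 1 (Or.inr rfl)
  obtain ⟨ν0, j0, e0, f0⟩ := hcon μ0 i0 (hst μ0 a0)
  obtain ⟨ν1, j1, e1, f1⟩ := hcon μ1 i1 (hst μ1 a1)
  have g0 := d0 0 (by simp [par])
  have g1 := c1 0 (by simp [par])
  rw [Measure.real, hrep μ0 ν0 j0 b0 e0 f0] at g0
  rw [Measure.real, hrep μ1 ν1 j1 b1 e1 f1] at g1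
  linarith

end Pool.Agent.Results.MP_6f5b46_pr.HardCore
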